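import Pool.Agent.Xtr.Main

set_option autoImplicit false

namespace Pool.Agent.Results.MP_28a29f_lc.AdditivePolynomials

/-- Let `(K, v)` be extremal of characteristic `p > 0` and let `(L, w)` be an immediate extension of
`(K, v)`. The conclusion of Q1 for the polynomials `d + ∑ a i X i + ∑ b i X i ^ (p ^ k)`, the shape
of the known obstruction: every value at a point of a polydisc over `L` with centre and radii in
`K` is matched, up to a smaller absolute value, by the value at a point of the same polydisc over
`K`. -/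
theorem result :
    ∀ (K : Type) [Field K] (Γ₀ : Type) [LinearOrderedCommGroupWithZero Γ₀]
      (v : Valuation K Γ₀),
      (∀ (n : ℕ) (f : MvPolynomial (Fin n) K), ∃ a : Fin n → K, (∀ i, v (a i) ≤ 1) ∧
          ∀ b : Fin n → K, (∀ i, v (b i) ≤ 1) →
            v (MvPolynomial.eval a f) ≤ v (MvPolynomial.eval b f)) →
      ∀ (L : Type) [Field L] [Algebra K L] (Γ₁ : Type) [LinearOrderedCommGroupWithZero Γ₁]
        (w : Valuation L Γ₁),
        (w.comap (algebraMap K L)).IsEquiv v →
        (∀ y : L, y ≠ 0 → ∃ x : K, w (y - algebraMap K L x) < w y) →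
        ∀ (p : ℕ) [Fact p.Prime] [CharP K p] (k n : ℕ) (a b : Fin n → K) (d : K)
          (c r : Fin n → K) (x : Fin n → L),
          (∀ i, w (x i - algebraMap K L (c i)) ≤ w (algebraMap K L (r i))) →
          ∃ y : Fin n → K, (∀ i, v (y i - c i) ≤ v (r i)) ∧
            w (algebraMap K L (d + ∑ i, a i * y i + ∑ i, b i * y i ^ (p ^ k))) ≤
              w (algebraMap K L d + ∑ i, algebraMap K L (a i) * x i
                + ∑ i, algebraMap K L (b i) * x i ^ (p ^ k)) := by
  intro K _ Γ₀ _ v hext L _ _ Γ₁ _ w hvw himm p _ _ k n a b d c r x hx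
  exact Pool.Agent.Xtr.additive_result K Γ₀ v hext L Γ₁ w hvw himm p k n a b d c r x hx

end Pool.Agent.Results.MP_28a29f_lc.AdditivePolynomials
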