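import Pool.Agent.Xtr.Main

set_option autoImplicit false

namespace Pool.Agent.Results.MP_28a29f_lc.CubicPolynomials

/-- Let `(K, v)` be extremal and let `(L, w)` be an immediate extension of `(K, v)`. For every
polynomial `f` over `K` of total degree at most `3`, in any number of variables, every value of `f`
at a point `x` of a polydisc over `L` with centre and radii in `K` is matched, up to a smaller
absolute value, by a value of `f` at a point of the same polydisc over `K`. -/
theorem result :
    ∀ (K : Type) [Field K] (Γ₀ : Type) [LinearOrderedCommGroupWithZero Γ₀]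
      (v : Valuation K Γ₀),
      (∀ (n : ℕ) (f : MvPolynomial (Fin n) K), ∃ a : Fin n → K, (∀ i, v (a i) ≤ 1) ∧
          ∀ b : Fin n → K, (∀ i, v (b i) ≤ 1) →
            v (MvPolynomial.eval a f) ≤ v (MvPolynomial.eval b f)) →
      ∀ (L : Type) [Field L] [Algebra K L] (Γ₁ : Type) [LinearOrderedCommGroupWithZero Γ₁]
        (w : Valuation L Γ₁),
        (w.comap (algebraMap K L)).IsEquiv v →
        (∀ y : L, y ≠ 0 → ∃ x : K, w (y - algebraMap K L x) < w y) →
        ∀ (n : ℕ) (f : MvPolynomial (Fin n) K), f.totalDegree ≤ 3 →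
          ∀ (c r : Fin n → K) (x : Fin n → L),
            (∀ i, w (x i - algebraMap K L (c i)) ≤ w (algebraMap K L (r i))) →
            ∃ y : Fin n → K, (∀ i, v (y i - c i) ≤ v (r i)) ∧
              w (algebraMap K L (MvPolynomial.eval y f)) ≤ w (MvPolynomial.aeval x f) := by
  intro K _ Γ₀ _ v hext L _ _ Γ₁ _ w hvw himm n f hf c r x hx
  exact Pool.Agent.Xtr.cubic_result K Γ₀ v hext L Γ₁ w hvw himm n f hf c r x hx

end Pool.Agent.Results.MP_28a29f_lc.CubicPolynomials
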