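import Pool.Agent.Xtc.Main

set_option autoImplicit false

namespace Pool.Agent.Results.MP_28a29f_lc.CyclicCovers

open Polynomial in
/-- Let `(K, v)` be extremal and `(L, w)` an immediate extension of `(K, v)`. Let `l` be a prime and
`f = A0(X) Y ^ l + A1(X) Y + A2(X)` with `A0, A1, A2` in `K[X]`, where `K` has characteristic `l` or
`A1 = 0`. Let `(x, y)` in `L ^ 2` be a zero of `f` with `A0(x) ≠ 0`. For finitely many polynomials
`P j + Q j Y` with `P j`, `Q j` in `K[X]` there is a zero `(a, b)` of `f` in `K ^ 2` at which they all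
have the same values as at `(x, y)`. -/
theorem result :
    ∀ (K : Type) [Field K] (Γ₀ : Type) [LinearOrderedCommGroupWithZero Γ₀]
      (v : Valuation K Γ₀),
      (∀ (n : ℕ) (f : MvPolynomial (Fin n) K), ∃ a : Fin n → K, (∀ i, v (a i) ≤ 1) ∧
          ∀ b : Fin n → K, (∀ i, v (b i) ≤ 1) →
            v (MvPolynomial.eval a f) ≤ v (MvPolynomial.eval b f)) →
      ∀ (L : Type) [Field L] [Algebra K L] (Γ₁ : Type) [LinearOrderedCommGroupWithZero Γ₁]
        (w : Valuation L Γ₁),
        (w.comap (algebraMap K L)).IsEquiv v →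
        (∀ y : L, y ≠ 0 → ∃ x : K, w (y - algebraMap K L x) < w y) →
        ∀ (l : ℕ), l.Prime → ∀ (A0 A1 A2 : K[X]), (CharP K l ∨ A1 = 0) →
          ∀ (x y : L), aeval x A0 ≠ 0 →
            aeval x A0 * y ^ l + aeval x A1 * y + aeval x A2 = 0 →
            ∀ (n : ℕ) (P Q : Fin n → K[X]),
              ∃ a b : K, A0.eval a * b ^ l + A1.eval a * b + A2.eval a = 0 ∧
                ∀ j, w (algebraMap K L ((P j).eval a + (Q j).eval a * b)) =
                  w (aeval x (P j) + aeval x (Q j) * y) := by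
  intro K _ Γ₀ _ v hext L _ _ Γ₁ _ w hvw himm l hl A0 A1 A2 hc x y h0 hy n P Q
  exact Pool.Agent.Xtc.cyclic_result K Γ₀ v hext L Γ₁ w hvw himm l hl A0 A1 A2 hc x y h0 hy n P Q

end Pool.Agent.Results.MP_28a29f_lc.CyclicCovers
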