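import Pool.Agent.Xtc.Cyc

set_option autoImplicit false

namespace Pool.Agent.Results.MP_28a29f_lc.CyclicExtensions

/-- Let `(K, v)` be extremal and `(L, w)` an immediate extension of `(K, v)`. Let `l` be a prime and
`x`, `y` in `L` such that `y ^ l - y` is in `K(x)` and `K` has characteristic `l`, or `y ^ l` is in
`K(x)` and `K` has characteristic `l` or contains a primitive `l`-th root of unity. Then `(K, v)` is
existentially closed in the valued field `K(x, y)`: for finitely many elements `z i` of `K(x, y)` and
finitely many polynomials `F j` over `K` there are `z' i` in `K` such that the value of `F j (z')` is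
the value of `F j (z)` for all `j`. -/
theorem result :
    ∀ (K : Type) [Field K] (Γ₀ : Type) [LinearOrderedCommGroupWithZero Γ₀]
      (v : Valuation K Γ₀),
      (∀ (n : ℕ) (f : MvPolynomial (Fin n) K), ∃ a : Fin n → K, (∀ i, v (a i) ≤ 1) ∧
          ∀ b : Fin n → K, (∀ i, v (b i) ≤ 1) →
            v (MvPolynomial.eval a f) ≤ v (MvPolynomial.eval b f)) →
      ∀ (L : Type) [Field L] [Algebra K L] (Γ₁ : Type) [LinearOrderedCommGroupWithZero Γ₁]
        (w : Valuation L Γ₁),
        (w.comap (algebraMap K L)).IsEquiv v →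
        (∀ y : L, y ≠ 0 → ∃ x : K, w (y - algebraMap K L x) < w y) →
        ∀ (l : ℕ), l.Prime → ∀ (x y : L),
          ((CharP K l ∧ y ^ l - y ∈ IntermediateField.adjoin K {x}) ∨
            ((CharP K l ∨ ∃ ζ : K, IsPrimitiveRoot ζ l) ∧
              y ^ l ∈ IntermediateField.adjoin K {x})) →
          ∀ (n : ℕ) (z : Fin n → L), (∀ i, z i ∈ IntermediateField.adjoin K {x, y}) →
            ∀ (m : ℕ) (F : Fin m → MvPolynomial (Fin n) K),
              ∃ z' : Fin n → K, ∀ j,
                w (algebraMap K L (MvPolynomial.eval z' (F j))) =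
                  w (MvPolynomial.aeval z (F j)) := by
  intro K _ Γ₀ _ v hext L _ _ Γ₁ _ w hvw himm l hl x y hc n z hz m F
  exact Pool.Agent.Xtc.cyclic_ec_result K Γ₀ v hext L Γ₁ w hvw himm l hl x y hc n z hz m F

end Pool.Agent.Results.MP_28a29f_lc.CyclicExtensions
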